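import Pool.Agent.Helper39.PD.Sys1r
import Pool.Agent.Helper68.PD.OneHub

/-! # PD-10b: a cherry between three fresh hubs, away from the tokens used so far -/

set_option autoImplicit false

namespace Pool.Agent.Helper32.PD

open Finset
open scoped Classical

variable {V : Type}

/-- Leaves of different hubs are different. -/
theorem leaf_ne_leaf {F : SimpleGraph V} {Λ : Type} {I Q : Λ → Finset V} {f : Λ → V → V}
    (H : Hubs F I Q f) {l l' : Λ} (hne : l ≠ l') {x x' : V} (hx : x ∈ Q l) (hx' : x' ∈ Q l') :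
    f l x ≠ f l' x' := by
  intro h
  obtain ⟨y, hy, hyadj⟩ := H.leaf_adj l x hx
  have := (H.leaf_anti l' l (Ne.symm hne) x' hx' y hy).2
  rw [h] at hyadj
  exact this hyadj

/-- The elements of `P` whose leaf at `l` sees no token of `U`. -/
theorem card_far {F : SimpleGraph V} {Λ : Type} {I Q : Λ → Finset V} {f : Λ → V → V}
    {ξ lam θ : ℝ} {n : ℕ} (S : Sys1 F I Q f ξ lam θ n) (l : Λ) (P : Finset V) (hP : P ⊆ Q l)
    (U : Finset (Λ × V)) (hU : ∀ u ∈ U, u.2 ∈ Q u.1 ∧ u.1 ≠ l) :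
    (P.card : ℝ) - U.card * (θ * n) ≤
      ((P.filter fun x => ∀ u ∈ U, ¬ F.Adj (f l x) (f u.1 u.2)).card : ℝ) := by
  classical
  have h1 : ((P.filter fun x => ¬ ∀ u ∈ U, ¬ F.Adj (f l x) (f u.1 u.2)).card : ℝ)
      ≤ U.card * (θ * n) := by
    have hsub : (P.filter fun x => ¬ ∀ u ∈ U, ¬ F.Adj (f l x) (f u.1 u.2)) ⊆
        U.biUnion fun u => (Q l).filter fun y => F.Adj (f u.1 u.2) (f l y) := by
      intro x hx
      rw [mem_filter] at hx
      obtain ⟨hxP, hx2⟩ := hx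
      push Not at hx2
      obtain ⟨u, hu, hadj⟩ := hx2
      rw [mem_biUnion]
      exact ⟨u, hu, by rw [mem_filter]; exact ⟨hP hxP, hadj.symm⟩⟩
    calc ((P.filter fun x => ¬ ∀ u ∈ U, ¬ F.Adj (f l x) (f u.1 u.2)).card : ℝ)
        ≤ ((U.biUnion fun u => (Q l).filter fun y => F.Adj (f u.1 u.2) (f l y)).card : ℝ) := by
          exact_mod_cast card_le_card hsub
      _ ≤ ∑ u ∈ U, (((Q l).filter fun y => F.Adj (f u.1 u.2) (f l y)).card : ℝ) := by
          exact_mod_cast card_biUnion_le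
      _ ≤ ∑ _u ∈ U, θ * n := by
          apply sum_le_sum
          intro u hu
          exact S.sparse u.1 l (hU u hu).2 u.2 (hU u hu).1
      _ = U.card * (θ * n) := by rw [sum_const, nsmul_eq_mul]
  have h2 : ((P.filter fun x => ∀ u ∈ U, ¬ F.Adj (f l x) (f u.1 u.2)).card : ℝ) +
      ((P.filter fun x => ¬ ∀ u ∈ U, ¬ F.Adj (f l x) (f u.1 u.2)).card : ℝ) = P.card := by
    exact_mod_cast card_filter_add_card_filter_not _
  linarith

/-- Tokens `(l, x)` stand for the leaves `f l x`. -/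
theorem exists_claw (F : SimpleGraph V) {Λ : Type} (I Q Qs : Λ → Finset V) (f : Λ → V → V)
    (q r : ℕ) (ξ lam θ : ℝ) (n K : ℕ) (hn : 1 ≤ n) (hlam : 0 < lam) (hξ : 0 < ξ)
    (S : Sys1r F I Q Qs f q r ξ lam θ n)
    (hsmall : 4 * lam + (K + 5) * θ ≤ ξ / (2 * q)) (U : Finset (Λ × V))
    (hU : ∀ u ∈ U, u.2 ∈ Q u.1) (hK : U.card ≤ K) (h : Fin 3 → Λ) (hinj : Function.Injective h)
    (hfresh : ∀ u ∈ U, ∀ κ, u.1 ≠ h κ) :
    ∃ (π : Equiv.Perm (Fin 3)) (x : Fin 3 → V), (∀ κ, x κ ∈ Qs (h κ)) ∧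
      F.Adj (f (h (π 0)) (x (π 0))) (f (h (π 1)) (x (π 1))) ∧
      F.Adj (f (h (π 0)) (x (π 0))) (f (h (π 2)) (x (π 2))) ∧
      ¬ F.Adj (f (h (π 1)) (x (π 1))) (f (h (π 2)) (x (π 2))) ∧
      ∀ κ, ∀ u ∈ U, f (h κ) (x κ) ≠ f u.1 u.2 ∧ ¬ F.Adj (f (h κ) (x κ)) (f u.1 u.2) := by
  classical
  have hn0 : (1 : ℝ) ≤ n := by exact_mod_cast hn
  -- one is at most θ n
  have hone : (1 : ℝ) ≤ θ * n := by
    have h1 : (0 : ℝ) < (Q (h 0)).card := by
      have := S.sys.size (h 0)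
      have : 0 < ξ * n := by positivity
      linarith [S.sys.size (h 0)]
    have h2 : (Q (h 0)).Nonempty := by
      rw [← card_pos]; exact_mod_cast h1
    obtain ⟨x, hx⟩ := h2
    have h3 := S.sys.single (h 0) x hx
    have h4 : (1 : ℝ) ≤ (((Q (h 0)).filter fun y => f (h 0) y = f (h 0) x).card : ℝ) := by
      have : 1 ≤ ((Q (h 0)).filter fun y => f (h 0) y = f (h 0) x).card := by
        rw [Nat.one_le_iff_ne_zero, card_ne_zero]
        exact ⟨x, by rw [mem_filter]; exact ⟨hx, rfl⟩⟩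
      exact_mod_cast this
    linarith
  have hθ : 0 < θ := by
    by_contra hneg
    push Not at hneg
    nlinarith
  let P : Fin 3 → Finset V := fun κ =>
    (Qs (h κ)).filter fun x => ∀ u ∈ U, ¬ F.Adj (f (h κ) x) (f u.1 u.2)
  have hPQ : ∀ κ, P κ ⊆ Q (h κ) := fun κ => (filter_subset _ _).trans (S.sub _)
  have hPc : ∀ κ, 4 * (lam * n) + θ * n + 4 ≤ (P κ).card := by
    intro κ
    have h1 := card_far S.sys (h κ) (Qs (h κ)) (S.sub _) U (fun u hu => ⟨hU u hu, hfresh u hu κ⟩)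
    have h2 := S.size (h κ)
    have h3 : (U.card : ℝ) ≤ K := by exact_mod_cast hK
    have h4 : (U.card : ℝ) * (θ * n) ≤ K * (θ * n) := by
      apply mul_le_mul_of_nonneg_right h3; linarith
    have h5 : (4 * lam + (K + 5) * θ) * n ≤ ξ / (2 * q) * n := by
      apply mul_le_mul_of_nonneg_right hsmall; linarith
    have h6 : (4 * lam + (K + 5) * θ) * n = 4 * (lam * n) + K * (θ * n) + 5 * (θ * n) := by ring
    show 4 * (lam * n) + θ * n + 4 ≤ (((Qs (h κ)).filter fun x =>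
      ∀ u ∈ U, ¬ F.Adj (f (h κ) x) (f u.1 u.2)).card : ℝ)
    linarith
  have hne01 : h 0 ≠ h 1 := fun e => absurd (hinj e) (by decide)
  have hne02 : h 0 ≠ h 2 := fun e => absurd (hinj e) (by decide)
  have hne12 : h 1 ≠ h 2 := fun e => absurd (hinj e) (by decide)
  have hln : 0 < lam * n := by positivity
  obtain ⟨a, ha, b, hb, c, hc, hcase⟩ := exists_cherry (P 0) (P 1) (P 2)
    (fun a b => F.Adj (f (h 0) a) (f (h 1) b)) (fun b c => F.Adj (f (h 1) b) (f (h 2) c))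
    (fun a c => F.Adj (f (h 0) a) (f (h 2) c)) (lam * n) (θ * n) hln
    (fun b hb => by
      refine le_trans ?_ (S.sys.sparse (h 1) (h 0) (Ne.symm hne01) b (hPQ 1 hb))
      have : ((P 0).filter fun a => F.Adj (f (h 0) a) (f (h 1) b)) ⊆
          (Q (h 0)).filter fun y => F.Adj (f (h 1) b) (f (h 0) y) := by
        intro y hy
        rw [mem_filter] at hy ⊢
        exact ⟨hPQ 0 hy.1, hy.2.symm⟩
      exact_mod_cast card_le_card this)
    (fun A' hA' B' hB' h1 h2 =>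
      S.sys.coh (h 0) (h 1) hne01 A' (hA'.trans (hPQ 0)) B' (hB'.trans (hPQ 1)) h1 h2)
    (fun A' hA' B' hB' h1 h2 =>
      S.sys.coh (h 1) (h 2) hne12 A' (hA'.trans (hPQ 1)) B' (hB'.trans (hPQ 2)) h1 h2)
    (fun A' hA' B' hB' h1 h2 =>
      S.sys.coh (h 0) (h 2) hne02 A' (hA'.trans (hPQ 0)) B' (hB'.trans (hPQ 2)) h1 h2)
    (by linarith [hPc 0]) (by linarith [hPc 1]) (by linarith [hPc 2])
  have hfar : ∀ κ, ∀ x ∈ P κ, ∀ u ∈ U, f (h κ) x ≠ f u.1 u.2 ∧ ¬ F.Adj (f (h κ) x) (f u.1 u.2) := by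
    intro κ x hx u hu
    refine ⟨?_, (mem_filter.1 hx).2 u hu⟩
    exact leaf_ne_leaf S.sys.hubs (Ne.symm (hfresh u hu κ)) (hPQ κ hx) (hU u hu)
  have hmemQs : ∀ κ, ∀ x ∈ P κ, x ∈ Qs (h κ) := fun κ x hx => (mem_filter.1 hx).1
  have hx3 : ∀ κ : Fin 3, (![a, b, c] : Fin 3 → V) κ ∈ P κ := by
    intro κ
    fin_cases κ
    · exact ha
    · exact hb
    · exact hc
  rcases hcase with ⟨h1, h2, h3⟩ | ⟨h1, h2, h3⟩ | ⟨h1, h2, h3⟩
  · refine ⟨Equiv.refl _, ![a, b, c], fun κ => hmemQs κ _ (hx3 κ), ?_, ?_, ?_, ?_⟩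
    · exact h1
    · exact h2
    · exact h3
    · intro κ u hu
      exact hfar κ _ (hx3 κ) u hu
  · refine ⟨Equiv.swap 0 1, ![a, b, c], fun κ => hmemQs κ _ (hx3 κ), ?_, ?_, ?_, ?_⟩
    · have e0 : (Equiv.swap (0 : Fin 3) 1) 0 = 1 := by decide
      have e1 : (Equiv.swap (0 : Fin 3) 1) 1 = 0 := by decide
      rw [e0, e1]
      exact h1.symm
    · have e0 : (Equiv.swap (0 : Fin 3) 1) 0 = 1 := by decide
      have e1 : (Equiv.swap (0 : Fin 3) 1) 2 = 2 := by decide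
      rw [e0, e1]
      exact h2
    · have e0 : (Equiv.swap (0 : Fin 3) 1) 1 = 0 := by decide
      have e1 : (Equiv.swap (0 : Fin 3) 1) 2 = 2 := by decide
      rw [e0, e1]
      exact h3
    · intro κ u hu
      exact hfar κ _ (hx3 κ) u hu
  · refine ⟨Equiv.swap 0 2, ![a, b, c], fun κ => hmemQs κ _ (hx3 κ), ?_, ?_, ?_, ?_⟩
    · have e0 : (Equiv.swap (0 : Fin 3) 2) 0 = 2 := by decide
      have e1 : (Equiv.swap (0 : Fin 3) 2) 1 = 1 := by decide
      rw [e0, e1]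
      exact h2.symm
    · have e0 : (Equiv.swap (0 : Fin 3) 2) 0 = 2 := by decide
      have e1 : (Equiv.swap (0 : Fin 3) 2) 2 = 0 := by decide
      rw [e0, e1]
      exact h1.symm
    · have e0 : (Equiv.swap (0 : Fin 3) 2) 1 = 1 := by decide
      have e1 : (Equiv.swap (0 : Fin 3) 2) 2 = 0 := by decide
      rw [e0, e1]
      exact fun hh => h3 hh.symm
    · intro κ u hu
      exact hfar κ _ (hx3 κ) u hu

end Pool.Agent.Helper32.PD
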